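import Pool.Agent.N829.OM.StmU
import Pool.Agent.N477.OM.Ex

/-!
# Project OM (helper829): all models of the matrix ultraproduct are isomorphic
(worker: helper477)
-/

set_option autoImplicit false

open Filter
open scoped Topology

namespace Pool.Agent.N477.OM

open Pool.Agent.Helper278

universe v w

section model

theorem matUltraExists' (U : Ultrafilter ℕ) :
    ∃ (Q : Type) (_ : Ring Q) (_ : StarRing Q) (_ : Algebra ℂ Q) (_ : StarModule ℂ Q)
      (π : (∀ n, Mat n) → Q) (τ : Q → ℂ), IsMatrixUltraproduct U π τ := by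
  classical
  obtain ⟨Q, i1, i2, i3, i4, π, τ, h⟩ := exists_matUltra U
  refine ⟨Q, i1, i2, i3, i4, fun x => if hx : NormBounded x then π ⟨x, hx⟩ else 0, τ, ?_⟩
  have key : ∀ (x : ∀ n, Mat n) (hx : NormBounded x),
      (if hx : NormBounded x then π ⟨x, hx⟩ else 0) = π ⟨x, hx⟩ := fun x hx => dif_pos hx
  refine ⟨?_, ?_, ?_, ?_, ?_, ?_, ?_, ?_⟩
  · have h1 : NormBounded (fun _ => 1) := (1 : BddSeq).2
    rw [key _ h1]
    exact map_one π
  · intro x y hx hy
    have h1 : NormBounded (fun n => x n + y n) := BddSeq.add_mem hx hy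
    rw [key _ h1, key _ hx, key _ hy]
    have h2 : π ((⟨x, hx⟩ : BddSeq) + ⟨y, hy⟩) = π ⟨x, hx⟩ + π ⟨y, hy⟩ := map_add π _ _
    rw [← h2]
    exact congrArg π (Subtype.ext rfl)
  · intro x y hx hy
    have h1 : NormBounded (fun n => x n * y n) := BddSeq.mul_mem hx hy
    rw [key _ h1, key _ hx, key _ hy]
    have h2 : π ((⟨x, hx⟩ : BddSeq) * ⟨y, hy⟩) = π ⟨x, hx⟩ * π ⟨y, hy⟩ := map_mul π _ _
    rw [← h2]
    exact congrArg π (Subtype.ext rfl)
  · intro c x hx
    have h1 : NormBounded (fun n => c • x n) := BddSeq.smul_mem hx c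
    rw [key _ h1, key _ hx]
    have h2 : π (c • (⟨x, hx⟩ : BddSeq)) = c • π ⟨x, hx⟩ := map_smul π c _
    rw [← h2]
    exact congrArg π (Subtype.ext rfl)
  · intro x hx
    have h1 : NormBounded (fun n => star (x n)) := BddSeq.star_mem' hx
    rw [key _ h1, key _ hx]
    have h2 : π (star (⟨x, hx⟩ : BddSeq)) = star (π ⟨x, hx⟩) := map_star π _
    rw [← h2]
    exact congrArg π (Subtype.ext rfl)
  · intro q
    obtain ⟨x, rfl⟩ := h.surj q
    exact ⟨x.1, x.2, key _ x.2⟩
  · intro x hx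
    rw [key _ hx]
    exact h.ker ⟨x, hx⟩
  · intro x hx
    rw [key _ hx]
    exact h.trace ⟨x, hx⟩

end model

section iso

variable {Q : Type v} [Ring Q] [StarRing Q] [Algebra ℂ Q]
  {R : Type w} [Ring R] [StarRing R] [Algebra ℂ R]
  {U : Ultrafilter ℕ} {π : (∀ n, Mat n) → Q} {τ : Q → ℂ} {θ : (∀ n, Mat n) → R} {φ : R → ℂ}

theorem nb_one : NormBounded (fun _ => 1) := (1 : BddSeq).2

theorem nb_add {x y : ∀ n, Mat n} (hx : NormBounded x) (hy : NormBounded y) :
    NormBounded (fun n => x n + y n) := BddSeq.add_mem hx hy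

theorem nb_mul {x y : ∀ n, Mat n} (hx : NormBounded x) (hy : NormBounded y) :
    NormBounded (fun n => x n * y n) := BddSeq.mul_mem hx hy

theorem nb_smul (c : ℂ) {x : ∀ n, Mat n} (hx : NormBounded x) :
    NormBounded (fun n => c • x n) := BddSeq.smul_mem hx c

theorem nb_star {x : ∀ n, Mat n} (hx : NormBounded x) :
    NormBounded (fun n => star (x n)) := BddSeq.star_mem' hx

/-- the congruence of bounded sequences does not depend on the model -/
theorem transfer (h : IsMatrixUltraproduct U π τ) (h' : IsMatrixUltraproduct U θ φ)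
    {x y : ∀ n, Mat n} (hx : NormBounded x) (hy : NormBounded y) (hxy : π x = π y) :
    θ x = θ y := by
  have hm : NormBounded (fun n => (-1 : ℂ) • y n) := nb_smul (-1) hy
  have hd : NormBounded (fun n => x n + (-1 : ℂ) • y n) := nb_add hx hm
  have h1 : π (fun n => x n + (-1 : ℂ) • y n) = 0 := by
    rw [h.add _ _ hx hm, h.smul _ _ hy, hxy, neg_one_smul, add_neg_cancel]
  have h2 := (h'.ker _ hd).2 ((h.ker _ hd).1 h1)
  rw [h'.add _ _ hx hm, h'.smul _ _ hy, neg_one_smul] at h2
  exact add_neg_eq_zero.1 h2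

/-- the isomorphism between two models -/
noncomputable def tr (h : IsMatrixUltraproduct U π τ) (h' : IsMatrixUltraproduct U θ φ) (q : Q) :
    R := θ (Classical.choose (h.surj q))

theorem tr_pi (h : IsMatrixUltraproduct U π τ) (h' : IsMatrixUltraproduct U θ φ)
    {x : ∀ n, Mat n} (hx : NormBounded x) : tr h h' (π x) = θ x := by
  have hs := Classical.choose_spec (h.surj (π x))
  exact transfer h h' hs.1 hx hs.2

/-- the isomorphism between two models as a star homomorphism -/
noncomputable def trHom (h : IsMatrixUltraproduct U π τ) (h' : IsMatrixUltraproduct U θ φ) :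
    Q →⋆ₐ[ℂ] R where
  toFun := tr h h'
  map_one' := by
    have h1 := tr_pi h h' nb_one
    rw [h.one, h'.one] at h1
    exact h1
  map_mul' a b := by
    obtain ⟨x, hx, rfl⟩ := h.surj a
    obtain ⟨y, hy, rfl⟩ := h.surj b
    rw [← h.mul x y hx hy, tr_pi h h' (nb_mul hx hy), tr_pi h h' hx, tr_pi h h' hy,
      h'.mul x y hx hy]
  map_zero' := by
    have hz : NormBounded (fun n => (0 : ℂ) • (fun n => (1 : Mat n)) n) := nb_smul 0 nb_one
    have h1 := tr_pi h h' hz
    rw [h.smul 0 _ nb_one, h'.smul 0 _ nb_one, zero_smul, zero_smul] at h1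
    exact h1
  map_add' a b := by
    obtain ⟨x, hx, rfl⟩ := h.surj a
    obtain ⟨y, hy, rfl⟩ := h.surj b
    rw [← h.add x y hx hy, tr_pi h h' (nb_add hx hy), tr_pi h h' hx, tr_pi h h' hy,
      h'.add x y hx hy]
  commutes' r := by
    have h1 := tr_pi h h' (nb_smul r nb_one)
    rw [h.smul r _ nb_one, h'.smul r _ nb_one, h.one, h'.one,
      ← Algebra.algebraMap_eq_smul_one, ← Algebra.algebraMap_eq_smul_one] at h1
    exact h1
  map_star' a := by
    obtain ⟨x, hx, rfl⟩ := h.surj a
    rw [← h.star x hx, tr_pi h h' (nb_star hx), tr_pi h h' hx, h'.star x hx]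

theorem trHom_pi (h : IsMatrixUltraproduct U π τ) (h' : IsMatrixUltraproduct U θ φ)
    {x : ∀ n, Mat n} (hx : NormBounded x) : trHom h h' (π x) = θ x := tr_pi h h' hx

theorem trHom_trHom (h : IsMatrixUltraproduct U π τ) (h' : IsMatrixUltraproduct U θ φ) (q : Q) :
    trHom h' h (trHom h h' q) = q := by
  obtain ⟨x, hx, rfl⟩ := h.surj q
  rw [trHom_pi h h' hx, trHom_pi h' h hx]

theorem trace_trHom (h : IsMatrixUltraproduct U π τ) (h' : IsMatrixUltraproduct U θ φ) (q : Q) :
    φ (trHom h h' q) = τ q := by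
  obtain ⟨x, hx, rfl⟩ := h.surj q
  rw [trHom_pi h h' hx]
  exact tendsto_nhds_unique (h'.trace x hx) (h.trace x hx)

end iso

end Pool.Agent.N477.OM
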